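import Pool.Agent.W996.EC.Stm
import Pool.Agent.Helper202.Riemann

/-! EC project (helper996), part EC-POLE (helper695): `S_pole`. -/

set_option autoImplicit false

namespace Pool.Agent.W695.ECPole

open MvPolynomial Filter Topology Pool.Agent.W996.EC

/-! ### functions asymptotic to polynomials in a left half plane -/

/-- exponentially small up to polynomial factors -/
def Err (f : ℂ → ℂ) : Prop :=
  ∃ (K : ℝ) (A : ℕ) (c1 : ℝ), 0 ≤ K ∧ c1 ≤ 0 ∧
    ∀ w ∈ LH c1, ‖f w‖ ≤ K * (1 + ‖w‖) ^ A * Real.exp w.re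

/-- polynomially bounded -/
def PB (f : ℂ → ℂ) : Prop :=
  ∃ (K : ℝ) (A : ℕ) (c1 : ℝ), 0 ≤ K ∧ c1 ≤ 0 ∧ ∀ w ∈ LH c1, ‖f w‖ ≤ K * (1 + ‖w‖) ^ A

/-- `f - D` is small -/
def Asy (f : ℂ → ℂ) (D : Polynomial ℂ) : Prop := Err (fun w => f w - D.eval w)

theorem LH_mono {c c' : ℝ} (h : c ≤ c') : LH c ⊆ LH c' := fun _ hw => lt_of_lt_of_le hw h

theorem Err.add {f g : ℂ → ℂ} (hf : Err f) (hg : Err g) : Err (fun w => f w + g w) := by
  obtain ⟨K, A, c1, hK, hc1, h1⟩ := hf
  obtain ⟨K', A', c1', hK', hc1', h1'⟩ := hg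
  refine ⟨K + K', A + A', min c1 c1', by positivity, (min_le_left _ _).trans hc1, fun w hw => ?_⟩
  have hb : (1 : ℝ) ≤ 1 + ‖w‖ := by have := norm_nonneg w; linarith
  have e1 := h1 w (LH_mono (min_le_left _ _) hw)
  have e2 := h1' w (LH_mono (min_le_right _ _) hw)
  have e3 : (1 + ‖w‖) ^ A ≤ (1 + ‖w‖) ^ (A + A') := pow_le_pow_right₀ hb (by omega)
  have e4 : (1 + ‖w‖) ^ A' ≤ (1 + ‖w‖) ^ (A + A') := pow_le_pow_right₀ hb (by omega)
  have hx := Real.exp_pos w.re
  calc ‖f w + g w‖ ≤ ‖f w‖ + ‖g w‖ := norm_add_le _ _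
    _ ≤ K * (1 + ‖w‖) ^ A * Real.exp w.re + K' * (1 + ‖w‖) ^ A' * Real.exp w.re := add_le_add e1 e2
    _ ≤ K * (1 + ‖w‖) ^ (A + A') * Real.exp w.re + K' * (1 + ‖w‖) ^ (A + A') * Real.exp w.re := by
        gcongr
    _ = (K + K') * (1 + ‖w‖) ^ (A + A') * Real.exp w.re := by ring

theorem PB.add {f g : ℂ → ℂ} (hf : PB f) (hg : PB g) : PB (fun w => f w + g w) := by
  obtain ⟨K, A, c1, hK, hc1, h1⟩ := hf
  obtain ⟨K', A', c1', hK', hc1', h1'⟩ := hg
  refine ⟨K + K', A + A', min c1 c1', by positivity, (min_le_left _ _).trans hc1, fun w hw => ?_⟩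
  have hb : (1 : ℝ) ≤ 1 + ‖w‖ := by have := norm_nonneg w; linarith
  have e1 := h1 w (LH_mono (min_le_left _ _) hw)
  have e2 := h1' w (LH_mono (min_le_right _ _) hw)
  have e3 : (1 + ‖w‖) ^ A ≤ (1 + ‖w‖) ^ (A + A') := pow_le_pow_right₀ hb (by omega)
  have e4 : (1 + ‖w‖) ^ A' ≤ (1 + ‖w‖) ^ (A + A') := pow_le_pow_right₀ hb (by omega)
  calc ‖f w + g w‖ ≤ ‖f w‖ + ‖g w‖ := norm_add_le _ _
    _ ≤ K * (1 + ‖w‖) ^ A + K' * (1 + ‖w‖) ^ A' := add_le_add e1 e2
    _ ≤ K * (1 + ‖w‖) ^ (A + A') + K' * (1 + ‖w‖) ^ (A + A') := by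
        gcongr
    _ = (K + K') * (1 + ‖w‖) ^ (A + A') := by ring

theorem PB.mul {f g : ℂ → ℂ} (hf : PB f) (hg : PB g) : PB (fun w => f w * g w) := by
  obtain ⟨K, A, c1, hK, hc1, h1⟩ := hf
  obtain ⟨K', A', c1', hK', hc1', h1'⟩ := hg
  refine ⟨K * K', A + A', min c1 c1', by positivity, (min_le_left _ _).trans hc1, fun w hw => ?_⟩
  have e1 := h1 w (LH_mono (min_le_left _ _) hw)
  have e2 := h1' w (LH_mono (min_le_right _ _) hw)
  calc ‖f w * g w‖ = ‖f w‖ * ‖g w‖ := norm_mul _ _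
    _ ≤ (K * (1 + ‖w‖) ^ A) * (K' * (1 + ‖w‖) ^ A') := by
        apply mul_le_mul e1 e2 (norm_nonneg _) (by positivity)
    _ = K * K' * (1 + ‖w‖) ^ (A + A') := by rw [pow_add]; ring

theorem Err.mul {f g : ℂ → ℂ} (hf : Err f) (hg : PB g) : Err (fun w => f w * g w) := by
  obtain ⟨K, A, c1, hK, hc1, h1⟩ := hf
  obtain ⟨K', A', c1', hK', hc1', h1'⟩ := hg
  refine ⟨K * K', A + A', min c1 c1', by positivity, (min_le_left _ _).trans hc1, fun w hw => ?_⟩
  have e1 := h1 w (LH_mono (min_le_left _ _) hw)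
  have e2 := h1' w (LH_mono (min_le_right _ _) hw)
  calc ‖f w * g w‖ = ‖f w‖ * ‖g w‖ := norm_mul _ _
    _ ≤ (K * (1 + ‖w‖) ^ A * Real.exp w.re) * (K' * (1 + ‖w‖) ^ A') := by
        apply mul_le_mul e1 e2 (norm_nonneg _) (by positivity)
    _ = K * K' * (1 + ‖w‖) ^ (A + A') * Real.exp w.re := by rw [pow_add]; ring

theorem Err.pb {f : ℂ → ℂ} (hf : Err f) : PB f := by
  obtain ⟨K, A, c1, hK, hc1, h1⟩ := hf
  refine ⟨K, A, c1, hK, hc1, fun w hw => (h1 w hw).trans ?_⟩
  have h0 : w.re < c1 := hw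
  have : Real.exp w.re ≤ 1 := Real.exp_le_one_iff.2 (by linarith)
  calc K * (1 + ‖w‖) ^ A * Real.exp w.re ≤ K * (1 + ‖w‖) ^ A * 1 := by gcongr
    _ = _ := mul_one _

theorem PB.const (c : ℂ) : PB (fun _ => c) :=
  ⟨‖c‖, 0, 0, norm_nonneg _, le_rfl, fun w _ => by simp⟩

theorem PB.id : PB (fun w => w) :=
  ⟨1, 1, 0, zero_le_one, le_rfl, fun w _ => by simp⟩

theorem PB.poly (D : Polynomial ℂ) : PB (fun w => D.eval w) := by
  induction D using Polynomial.induction_on with
  | C c => simpa using PB.const c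
  | add p q hp hq => simpa using hp.add hq
  | monomial k c hk =>
    have := hk.mul PB.id
    simpa [pow_succ, mul_assoc] using this

theorem Asy.pb {f : ℂ → ℂ} {D : Polynomial ℂ} (h : Asy f D) : PB f := by
  have := (Err.pb h).add (PB.poly D)
  simpa using this

theorem Err.zero : Err (fun _ => 0) := ⟨0, 0, 0, le_rfl, le_rfl, fun w _ => by simp⟩

theorem Asy.poly (D : Polynomial ℂ) : Asy (fun w => D.eval w) D := by
  unfold Asy
  simpa using Err.zero

theorem Asy.add {f g : ℂ → ℂ} {D E : Polynomial ℂ} (hf : Asy f D) (hg : Asy g E) :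
    Asy (fun w => f w + g w) (D + E) := by
  have := Err.add hf hg
  unfold Asy
  convert this using 2 with w
  rw [Polynomial.eval_add]; ring

theorem Asy.mul {f g : ℂ → ℂ} {D E : Polynomial ℂ} (hf : Asy f D) (hg : Asy g E) :
    Asy (fun w => f w * g w) (D * E) := by
  have h1 := Err.mul hf hg.pb
  have h2 := Err.mul hg (PB.poly D)
  have := Err.add h1 h2
  unfold Asy
  convert this using 2 with w
  rw [Polynomial.eval_mul]; ring

theorem Asy.congr {f g : ℂ → ℂ} {D : Polynomial ℂ} (hf : Asy f D) {c : ℝ}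
    (h : ∀ w ∈ LH c, f w = g w) : Asy g D := by
  obtain ⟨K, A, c1, hK, hc1, h1⟩ := hf
  refine ⟨K, A, min c1 c, hK, (min_le_left _ _).trans hc1, fun w hw => ?_⟩
  change ‖g w - _‖ ≤ _
  rw [← h w (LH_mono (min_le_right _ _) hw)]
  exact h1 w (LH_mono (min_le_left _ _) hw)

theorem Asy.pow {f : ℂ → ℂ} {D : Polynomial ℂ} (hf : Asy f D) (k : ℕ) :
    Asy (fun w => f w ^ k) (D ^ k) := by
  induction k with
  | zero => simpa using Asy.poly (1 : Polynomial ℂ)
  | succ k ih => simpa [pow_succ] using ih.mul hf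

theorem Asy.sum {ι : Type*} (s : Finset ι) {f : ι → ℂ → ℂ} {D : ι → Polynomial ℂ}
    (h : ∀ i ∈ s, Asy (f i) (D i)) : Asy (fun w => ∑ i ∈ s, f i w) (∑ i ∈ s, D i) := by
  classical
  induction s using Finset.induction_on with
  | empty => simpa using Asy.poly (0 : Polynomial ℂ)
  | insert a s ha ih =>
    simp only [Finset.sum_insert ha]
    exact (h a (Finset.mem_insert_self _ _)).add (ih fun i hi => h i (Finset.mem_insert_of_mem hi))

theorem Asy.prod {ι : Type*} (s : Finset ι) {f : ι → ℂ → ℂ} {D : ι → Polynomial ℂ}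
    (h : ∀ i ∈ s, Asy (f i) (D i)) : Asy (fun w => ∏ i ∈ s, f i w) (∏ i ∈ s, D i) := by
  classical
  induction s using Finset.induction_on with
  | empty => simpa using Asy.poly (1 : Polynomial ℂ)
  | insert a s ha ih =>
    simp only [Finset.prod_insert ha]
    exact (h a (Finset.mem_insert_self _ _)).mul (ih fun i hi => h i (Finset.mem_insert_of_mem hi))

/-! ### the joint limit -/

/-- the shifted variable -/
noncomputable def sh (q : ℕ × ℂ) : ℂ := -(q.1 : ℂ) + q.2

theorem tendsto_ninv (v0 : ℂ) :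
    Tendsto (fun q : ℕ × ℂ => (-(q.1 : ℂ))⁻¹) (atTop ×ˢ 𝓝 v0) (𝓝 0) := by
  have h1 : Tendsto (fun k : ℕ => ((k : ℂ))⁻¹) atTop (𝓝 0) := tendsto_inv_atTop_nhds_zero_nat
  have h2 := (h1.comp (tendsto_fst (f := (atTop : Filter ℕ)) (g := 𝓝 v0))).neg
  rw [neg_zero] at h2
  refine h2.congr fun q => ?_
  simp [inv_neg]

theorem tendsto_ratio (v0 : ℂ) :
    Tendsto (fun q : ℕ × ℂ => sh q * (-(q.1 : ℂ))⁻¹) (atTop ×ˢ 𝓝 v0) (𝓝 1) := by
  have h1 := tendsto_ninv v0
  have h2 : Tendsto (fun q : ℕ × ℂ => q.2) (atTop ×ˢ 𝓝 v0) (𝓝 v0) := tendsto_snd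
  have h3 := (h2.mul h1).const_add 1
  rw [mul_zero, add_zero] at h3
  refine h3.congr' ?_
  have h4 : ∀ᶠ k : ℕ in atTop, 1 ≤ k := eventually_ge_atTop 1
  filter_upwards [h4.prod_inl (𝓝 v0)] with q hq
  have hq' : (q.1 : ℂ) ≠ 0 := by
    have : q.1 ≠ 0 := by omega
    exact_mod_cast this
  unfold sh
  field_simp
  ring

theorem poly_lim (D : Polynomial ℂ) (v0 : ℂ) :
    Tendsto (fun q : ℕ × ℂ => D.eval (sh q) * ((-(q.1 : ℂ))⁻¹) ^ D.natDegree)
      (atTop ×ˢ 𝓝 v0) (𝓝 D.leadingCoeff) := by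
  have h1 := tendsto_ninv v0
  have h2 := tendsto_ratio v0
  have h3 : Tendsto (fun q : ℕ × ℂ => ∑ i ∈ Finset.range (D.natDegree + 1),
      D.coeff i * (sh q * (-(q.1 : ℂ))⁻¹) ^ i * ((-(q.1 : ℂ))⁻¹) ^ (D.natDegree - i))
      (atTop ×ˢ 𝓝 v0) (𝓝 (∑ i ∈ Finset.range (D.natDegree + 1),
        D.coeff i * 1 ^ i * 0 ^ (D.natDegree - i))) := by
    refine tendsto_finsetSum _ fun i _ => ?_
    exact ((h2.pow i).const_mul _).mul (h1.pow _)
  have h4 : ∑ i ∈ Finset.range (D.natDegree + 1),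
        D.coeff i * 1 ^ i * 0 ^ (D.natDegree - i) = D.leadingCoeff := by
    rw [Finset.sum_range_succ, Finset.sum_eq_zero]
    · simp
    · intro i hi
      have : D.natDegree - i ≠ 0 := by
        have := Finset.mem_range.1 hi; omega
      rw [zero_pow this, mul_zero]
  rw [h4] at h3
  refine h3.congr fun q => ?_
  rw [Polynomial.eval_eq_sum_range, Finset.sum_mul]
  refine Finset.sum_congr rfl fun i hi => ?_
  have hi' : i ≤ D.natDegree := by have := Finset.mem_range.1 hi; omega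
  have : ((-(q.1 : ℂ))⁻¹) ^ D.natDegree
      = ((-(q.1 : ℂ))⁻¹) ^ i * ((-(q.1 : ℂ))⁻¹) ^ (D.natDegree - i) := by
    rw [← pow_add]; congr 1; omega
  rw [this, mul_pow]; ring

theorem err_lim {f : ℂ → ℂ} (hf : Err f) (v0 : ℂ) :
    Tendsto (fun q : ℕ × ℂ => f (sh q)) (atTop ×ˢ 𝓝 v0) (𝓝 0) := by
  obtain ⟨K, A, c1, hK, hc1, h1⟩ := hf
  set R : ℝ := ‖v0‖ + 1 with hR
  have hRp : 0 < R := by positivity
  -- comparison sequence
  have h2 : Tendsto (fun k : ℕ => K * Real.exp (1 + R + R) *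
      (((k : ℝ) + (1 + R)) ^ A * Real.exp (-((k : ℝ) + (1 + R))))) atTop (𝓝 0) := by
    have h3 := Real.tendsto_pow_mul_exp_neg_atTop_nhds_zero A
    have h4 : Tendsto (fun k : ℕ => (k : ℝ) + (1 + R)) atTop atTop :=
      tendsto_atTop_add_const_right _ _ tendsto_natCast_atTop_atTop
    have h5 := (h3.comp h4).const_mul (K * Real.exp (1 + R + R))
    rw [mul_zero] at h5
    exact h5
  have h3 := h2.comp (tendsto_fst (f := (atTop : Filter ℕ)) (g := 𝓝 v0))
  refine squeeze_zero_norm' ?_ h3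
  have e1 : ∀ᶠ v in 𝓝 v0, ‖v‖ < R := by
    have : Tendsto (fun v : ℂ => ‖v‖) (𝓝 v0) (𝓝 ‖v0‖) := continuous_norm.continuousAt
    exact this.eventually_lt_const (by rw [hR]; linarith)
  obtain ⟨k0, hk0⟩ := exists_nat_gt (R - c1)
  have e2 : ∀ᶠ k : ℕ in atTop, k0 ≤ k := eventually_ge_atTop k0
  filter_upwards [e2.prod_inl (𝓝 v0), e1.prod_inr atTop] with q hq1 hq2
  have hre : q.2.re < R := lt_of_le_of_lt (Complex.re_le_norm _) hq2
  have hk : (k0 : ℝ) ≤ q.1 := by exact_mod_cast hq1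
  have hshre : (sh q).re = -(q.1 : ℝ) + q.2.re := by simp [sh]
  have hmem : sh q ∈ LH c1 := by
    change (sh q).re < c1
    rw [hshre]; linarith
  refine (h1 _ hmem).trans ?_
  have hn : 1 + ‖sh q‖ ≤ (q.1 : ℝ) + (1 + R) := by
    have : ‖sh q‖ ≤ (q.1 : ℝ) + ‖q.2‖ := by
      unfold sh
      refine (norm_add_le _ _).trans ?_
      simp
    linarith
  have he : Real.exp (sh q).re ≤ Real.exp (1 + R + R) * Real.exp (-((q.1 : ℝ) + (1 + R))) := by
    rw [← Real.exp_add]
    apply Real.exp_le_exp.2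
    rw [hshre]; linarith
  have hp : (1 + ‖sh q‖) ^ A ≤ ((q.1 : ℝ) + (1 + R)) ^ A := by gcongr
  simp only [Function.comp_apply]
  calc K * (1 + ‖sh q‖) ^ A * Real.exp (sh q).re
      ≤ K * ((q.1 : ℝ) + (1 + R)) ^ A *
        (Real.exp (1 + R + R) * Real.exp (-((q.1 : ℝ) + (1 + R)))) := by gcongr
    _ = _ := by ring

theorem Asy.lim {f : ℂ → ℂ} {D : Polynomial ℂ} (hf : Asy f D) (v0 : ℂ) :
    Tendsto (fun q : ℕ × ℂ => f (sh q) * ((-(q.1 : ℂ))⁻¹) ^ D.natDegree)
      (atTop ×ˢ 𝓝 v0) (𝓝 D.leadingCoeff) := by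
  have h1 := poly_lim D v0
  have h2 := (err_lim hf v0).mul ((tendsto_ninv v0).pow D.natDegree)
  rw [zero_mul] at h2
  have h3 := h1.add h2
  rw [add_zero] at h3
  refine h3.congr fun q => ?_
  ring

/-! ### expansion in powers of `N` -/

section taylor

variable {n : ℕ}

/-- `q (y + t ξ)` as a polynomial in `t` -/
noncomputable def T (ξ : Fin n → ℂ) :
    MvPolynomial (Fin n) ℂ →ₐ[ℂ] Polynomial (MvPolynomial (Fin n) ℂ) :=
  aeval (fun i => Polynomial.C (X i) + Polynomial.C (C (ξ i)) * Polynomial.X)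

theorem T_eval (ξ y : Fin n → ℂ) (N : ℂ) (q : MvPolynomial (Fin n) ℂ) :
    eval (fun i => y i + N * ξ i) q = ((T ξ q).map (eval y)).eval N := by
  induction q using MvPolynomial.induction_on with
  | C c =>
    have : T ξ (C c) = Polynomial.C (C c) := by
      unfold T; rw [MvPolynomial.aeval_C]; rfl
    rw [this]; simp
  | add p q hp hq => simp only [map_add, Polynomial.map_add, Polynomial.eval_add, hp, hq]
  | mul_X p i hp =>
    rw [map_mul, map_mul, Polynomial.map_mul, Polynomial.eval_mul, hp]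
    congr 1
    unfold T
    rw [aeval_X]
    simp
    ring

theorem T_mono (ξ : Fin n → ℂ) (s : Finset (Fin n)) (m : Fin n → ℕ) :
    (∏ i ∈ s, (Polynomial.C (X i) + Polynomial.C (C (ξ i)) * Polynomial.X :
      Polynomial (MvPolynomial (Fin n) ℂ)) ^ m i).natDegree ≤ ∑ i ∈ s, m i ∧
    (∏ i ∈ s, (Polynomial.C (X i) + Polynomial.C (C (ξ i)) * Polynomial.X :
      Polynomial (MvPolynomial (Fin n) ℂ)) ^ m i).coeff (∑ i ∈ s, m i) =
      C (∏ i ∈ s, ξ i ^ m i) := by
  classical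
  have h1 : ∀ i : Fin n, (Polynomial.C (X i) + Polynomial.C (C (ξ i)) * Polynomial.X :
      Polynomial (MvPolynomial (Fin n) ℂ)).natDegree ≤ 1 := by
    intro i
    rw [add_comm]
    exact Polynomial.natDegree_linear_le
  have h2 : ∀ i : Fin n, ((Polynomial.C (X i) + Polynomial.C (C (ξ i)) * Polynomial.X :
      Polynomial (MvPolynomial (Fin n) ℂ)) ^ m i).natDegree ≤ m i := by
    intro i
    calc _ ≤ m i * _ := Polynomial.natDegree_pow_le
      _ ≤ m i * 1 := Nat.mul_le_mul_left _ (h1 i)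
      _ = m i := mul_one _
  have h3 : ∀ i : Fin n, ((Polynomial.C (X i) + Polynomial.C (C (ξ i)) * Polynomial.X :
      Polynomial (MvPolynomial (Fin n) ℂ)) ^ m i).coeff (m i) = C (ξ i ^ m i) := by
    intro i
    have := Polynomial.coeff_pow_of_natDegree_le (m := m i) (h1 i)
    rw [mul_one] at this
    rw [this]
    simp
  induction s using Finset.induction_on with
  | empty => simp
  | insert a s ha ih =>
    rw [Finset.prod_insert ha, Finset.sum_insert ha]
    refine ⟨Polynomial.natDegree_mul_le_of_le (h2 a) ih.1, ?_⟩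
    rw [Polynomial.coeff_mul_add_eq_of_natDegree_le (h2 a) ih.1, h3, ih.2, Finset.prod_insert ha, C_mul]

theorem T_monomial (ξ : Fin n → ℂ) (m : Fin n →₀ ℕ) (c : ℂ) :
    (T ξ (monomial m c)).natDegree ≤ m.degree ∧
    (T ξ (monomial m c)).coeff m.degree = C (eval ξ (monomial m c)) := by
  have h : T ξ (monomial m c) = Polynomial.C (C c) * ∏ i, (Polynomial.C (X i) +
      Polynomial.C (C (ξ i)) * Polynomial.X : Polynomial (MvPolynomial (Fin n) ℂ)) ^ m i := by
    unfold T
    rw [aeval_monomial, Finsupp.prod_fintype _ _ (fun _ => pow_zero _)]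
    rfl
  have hd : m.degree = ∑ i, m i := by
    rw [Finsupp.degree_eq_sum]
  obtain ⟨h1, h2⟩ := T_mono ξ Finset.univ m
  rw [h, hd]
  refine ⟨(Polynomial.natDegree_C_mul_le _ _).trans h1, ?_⟩
  rw [Polynomial.coeff_C_mul, h2, eval_monomial, Finsupp.prod_fintype _ _ (fun _ => pow_zero _),
    C_mul]

theorem T_deg (ξ : Fin n → ℂ) {d : ℕ} {q : MvPolynomial (Fin n) ℂ} (hq : q.totalDegree ≤ d) :
    (T ξ q).natDegree ≤ d := by
  rw [← q.support_sum_monomial_coeff, map_sum]
  refine Polynomial.natDegree_sum_le_of_forall_le _ _ fun m hm => ?_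
  refine (T_monomial ξ m _).1.trans ?_
  refine le_trans ?_ hq
  have := le_totalDegree hm
  rwa [Finsupp.degree_eq_sum, ← Finsupp.sum_fintype m (fun _ e => e) (fun _ => rfl)]

theorem T_top (ξ : Fin n → ℂ) {d : ℕ} {q : MvPolynomial (Fin n) ℂ} (hq : q.totalDegree ≤ d) :
    (T ξ q).coeff d = C (eval ξ (homogeneousComponent d q)) := by
  classical
  conv_lhs => rw [← q.support_sum_monomial_coeff, map_sum]
  rw [Polynomial.finsetSum_coeff, homogeneousComponent_apply, map_sum, map_sum, Finset.sum_filter]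
  refine Finset.sum_congr rfl fun m hm => ?_
  have hmd : m.degree ≤ d := by
    refine le_trans ?_ hq
    have := le_totalDegree hm
    rwa [Finsupp.degree_eq_sum, ← Finsupp.sum_fintype m (fun _ e => e) (fun _ => rfl)]
  split_ifs with h
  · have := (T_monomial ξ m (coeff m q)).2
    rw [h] at this
    exact this
  · apply Polynomial.coeff_eq_zero_of_natDegree_lt
    exact lt_of_le_of_lt (T_monomial ξ m _).1 (lt_of_le_of_ne hmd h)

theorem T_zero (ξ : Fin n → ℂ) (q : MvPolynomial (Fin n) ℂ) : (T ξ q).coeff 0 = q := by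
  apply MvPolynomial.funext
  intro y
  have := T_eval ξ y 0 q
  rw [← Polynomial.coeff_zero_eq_eval_zero, Polynomial.coeff_map] at this
  rw [← this]
  simp

theorem T_expand (ξ y : Fin n → ℂ) (N : ℂ) {d : ℕ} {q : MvPolynomial (Fin n) ℂ}
    (hq : q.totalDegree ≤ d) :
    eval (fun i => y i + N * ξ i) q =
      ∑ j ∈ Finset.range d, N ^ j * eval y ((T ξ q).coeff j) +
        N ^ d * eval ξ (homogeneousComponent d q) := by
  rw [T_eval, Polynomial.eval_eq_sum_range' (n := d + 1), Finset.sum_range_succ,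
    Polynomial.coeff_map, T_top ξ hq, eval_C]
  · congr 1
    · refine Finset.sum_congr rfl fun j _ => ?_
      rw [Polynomial.coeff_map, mul_comm]
    · rw [mul_comm]
  · refine lt_of_le_of_lt Polynomial.natDegree_map_le ?_
    have := T_deg ξ hq
    omega

/-- the finite set of exponents which can occur -/
theorem exists_support (ξ : Fin n → ℂ) (d : ℕ) : ∃ M : Finset (Fin n →₀ ℕ),
    ∀ j, ∀ q : MvPolynomial (Fin n) ℂ, q.totalDegree ≤ d → ((T ξ q).coeff j).support ⊆ M := by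
  classical
  let M0 : Finset (Fin n →₀ ℕ) := (Finsupp.finite_of_degree_le (σ := Fin n) d).toFinset
  refine ⟨M0.biUnion fun m => (Finset.range (d + 1)).biUnion fun j =>
    ((T ξ (monomial m 1)).coeff j).support, fun j q hq m hm => ?_⟩
  by_contra hcon
  rw [mem_support_iff] at hm
  apply hm
  conv_lhs => rw [← q.support_sum_monomial_coeff, map_sum]
  rw [Polynomial.finsetSum_coeff, coeff_sum]
  refine Finset.sum_eq_zero fun m' hm' => ?_
  have hmd : m'.degree ≤ d := by
    refine le_trans ?_ hq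
    have := le_totalDegree hm'
    rwa [Finsupp.degree_eq_sum, ← Finsupp.sum_fintype m' (fun _ e => e) (fun _ => rfl)]
  have e1 : monomial m' (coeff m' q) = coeff m' q • monomial m' (1 : ℂ) := by
    rw [smul_monomial, smul_eq_mul, mul_one]
  rw [e1, map_smul, Polynomial.coeff_smul, coeff_smul]
  by_cases hj : j ≤ d
  · by_contra hne
    apply hcon
    rw [Finset.mem_biUnion]
    refine ⟨m', by simpa [M0] using hmd, ?_⟩
    rw [Finset.mem_biUnion]
    refine ⟨j, Finset.mem_range.2 (by omega), ?_⟩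
    rw [mem_support_iff]
    intro h0
    apply hne
    rw [h0, smul_zero]
  · rw [Polynomial.coeff_eq_zero_of_natDegree_lt, coeff_zero, smul_zero]
    exact lt_of_le_of_lt (T_monomial ξ m' 1).1 (by omega)

end taylor

/-! ### the leading exponent -/

/-- the alternative of the hypothesis for a scalar function -/
def Alt (c0 : ℝ) (f : ℂ → ℂ) : Prop :=
  (∀ w ∈ LH c0, f w = 0) ∨
    ∃ (o : ℤ) (γ : ℂ) (C1 c1 : ℝ), γ ≠ 0 ∧
      ∀ w ∈ LH c1, ‖f w - γ * Complex.exp (o * w)‖ ≤ C1 * Real.exp ((o + 1) * w.re)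

theorem norm_exp_int (o : ℤ) (w : ℂ) : ‖Complex.exp (o * w)‖ = Real.exp (o * w.re) := by
  rw [Complex.norm_exp]
  simp

theorem key {n : ℕ} (c0 : ℝ) (M : Finset (Fin n →₀ ℕ)) (f : (Fin n →₀ ℕ) → ℂ → ℂ)
    (hf : ∀ m, Alt c0 (f m)) (hex : ∃ m ∈ M, ¬ ∀ w ∈ LH c0, f m w = 0) :
    ∃ (o : ℤ) (D : MvPolynomial (Fin n) ℂ), D ≠ 0 ∧ D.support ⊆ M ∧
      (∀ m ∈ M, Asy (fun w => Complex.exp (-(o : ℂ) * w) * f m w) (Polynomial.C (coeff m D))) ∧
      (∀ m ∈ M, ∃ (K c1 : ℝ), ∀ w ∈ LH c1, ‖f m w‖ ≤ K * Real.exp (o * w.re)) := by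
  classical
  set S : Finset (Fin n →₀ ℕ) := M.filter fun m => ¬ ∀ w ∈ LH c0, f m w = 0 with hS
  have hf' : ∀ m, ∃ (o : ℤ) (γ : ℂ) (C1 c1 : ℝ), m ∈ S → γ ≠ 0 ∧
      ∀ w ∈ LH c1, ‖f m w - γ * Complex.exp (o * w)‖ ≤ C1 * Real.exp ((o + 1) * w.re) := by
    intro m
    rcases hf m with h | ⟨o, γ, C1, c1, h1, h2⟩
    · refine ⟨0, 0, 0, 0, fun hm => ?_⟩
      exact absurd h (Finset.mem_filter.1 hm).2
    · exact ⟨o, γ, C1, c1, fun _ => ⟨h1, h2⟩⟩
  choose o γ C1 c1 hm using hf'
  have hSne : S.Nonempty := by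
    obtain ⟨m, h1, h2⟩ := hex
    exact ⟨m, Finset.mem_filter.2 ⟨h1, h2⟩⟩
  obtain ⟨ms, hms, hmin⟩ := Finset.exists_min_image S o hSne
  set O : ℤ := o ms with hO
  set D : MvPolynomial (Fin n) ℂ := ∑ m ∈ S, if o m = O then monomial m (γ m) else 0 with hD
  have hcoeff : ∀ m, coeff m D = if m ∈ S ∧ o m = O then γ m else 0 := by
    intro m
    rw [hD, coeff_sum]
    by_cases h : m ∈ S
    · rw [Finset.sum_eq_single m]
      · by_cases h2 : o m = O <;> simp [h, h2]
      · intro m' _ hne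
        split_ifs
        · rw [coeff_monomial, if_neg hne]
        · simp
      · intro h'; exact absurd h h'
    · rw [if_neg (by tauto)]
      refine Finset.sum_eq_zero fun m' hm' => ?_
      split_ifs
      · rw [coeff_monomial, if_neg]
        rintro rfl; exact h hm'
      · simp
  have hSM : S ⊆ M := Finset.filter_subset _ _
  refine ⟨O, D, ?_, ?_, ?_, ?_⟩
  · intro h0
    have := hcoeff ms
    rw [h0, coeff_zero, if_pos ⟨hms, rfl⟩] at this
    exact (hm ms hms).1 this.symm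
  · intro m hmm
    rw [mem_support_iff, hcoeff] at hmm
    by_contra hcon
    apply hmm
    rw [if_neg]
    exact fun h => hcon (hSM h.1)
  · intro m hmM
    by_cases hmS : m ∈ S
    · obtain ⟨hγ, hb⟩ := hm m hmS
      have hle : O ≤ o m := hmin m hmS
      -- main estimate
      have hC1 : 0 ≤ |C1 m| := abs_nonneg _
      refine ⟨|C1 m| + ‖γ m‖, 0, min (c1 m) 0, by positivity, min_le_right _ _, fun w hw => ?_⟩
      have hw1 : w ∈ LH (c1 m) := LH_mono (min_le_left _ _) hw
      have hw0 : w.re < 0 := lt_of_lt_of_le hw (min_le_right _ _)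
      have hb1 := hb w hw1
      rw [pow_zero, mul_one]
      change ‖Complex.exp (-(O : ℂ) * w) * f m w - (Polynomial.C (coeff m D)).eval w‖ ≤ _
      rw [Polynomial.eval_C, hcoeff]
      have hsplit : Complex.exp (-(O : ℂ) * w) * f m w =
          Complex.exp (-(O : ℂ) * w) * (f m w - γ m * Complex.exp (o m * w)) +
          γ m * Complex.exp (((o m - O : ℤ) : ℂ) * w) := by
        have : Complex.exp (((o m - O : ℤ) : ℂ) * w) =
            Complex.exp (-(O : ℂ) * w) * Complex.exp (o m * w) := by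
          rw [← Complex.exp_add]; congr 1; push_cast; ring
        rw [this]; ring
      have hfirst : ‖Complex.exp (-(O : ℂ) * w) * (f m w - γ m * Complex.exp (o m * w))‖ ≤
          |C1 m| * Real.exp w.re := by
        rw [norm_mul]
        have e1 : ‖Complex.exp (-(O : ℂ) * w)‖ = Real.exp (-(O : ℝ) * w.re) := by
          have := norm_exp_int (-O) w
          push_cast at this
          exact this
        rw [e1]
        calc Real.exp (-(O : ℝ) * w.re) * ‖f m w - γ m * Complex.exp (o m * w)‖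
            ≤ Real.exp (-(O : ℝ) * w.re) * (C1 m * Real.exp ((o m + 1) * w.re)) := by gcongr
          _ ≤ Real.exp (-(O : ℝ) * w.re) * (|C1 m| * Real.exp ((o m + 1) * w.re)) := by
              gcongr; exact le_abs_self _
          _ = |C1 m| * Real.exp (((o m : ℝ) - O) * w.re + w.re) := by
              rw [mul_left_comm, ← Real.exp_add]; congr 2; ring
          _ ≤ |C1 m| * Real.exp w.re := by
              have hle' : (O : ℝ) ≤ o m := by exact_mod_cast hle
              have : ((o m : ℝ) - O) * w.re ≤ 0 :=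
                mul_nonpos_of_nonneg_of_nonpos (by linarith) hw0.le
              gcongr
              linarith
      rw [hsplit]
      by_cases heq : o m = O
      · rw [if_pos ⟨hmS, heq⟩, heq]
        simp only [sub_self, Int.cast_zero, zero_mul, Complex.exp_zero, mul_one,
          add_sub_cancel_right]
        rw [heq] at hfirst
        refine hfirst.trans ?_
        have := Real.exp_pos w.re
        nlinarith [norm_nonneg (γ m)]
      · rw [if_neg (by tauto), sub_zero]
        refine (norm_add_le _ _).trans ?_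
        rw [add_mul]
        refine add_le_add hfirst ?_
        rw [norm_mul, norm_exp_int]
        gcongr
        have hlt : O + 1 ≤ o m := by
          rcases lt_or_eq_of_le hle with h | h
          · omega
          · exact absurd h.symm heq
        have hlt' : (O : ℝ) + 1 ≤ o m := by exact_mod_cast hlt
        push_cast
        nlinarith
    · -- identically zero
      have h0 : ∀ w ∈ LH c0, f m w = 0 := by
        by_contra hcon
        exact hmS (Finset.mem_filter.2 ⟨hmM, hcon⟩)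
      rw [hcoeff, if_neg (by tauto), Polynomial.C_0]
      refine (Asy.poly 0).congr (c := c0) fun w hw => ?_
      rw [h0 w hw]; simp
  · intro m hmM
    by_cases hmS : m ∈ S
    · obtain ⟨hγ, hb⟩ := hm m hmS
      have hle : O ≤ o m := hmin m hmS
      refine ⟨|C1 m| + ‖γ m‖, min (c1 m) 0, fun w hw => ?_⟩
      have hw1 : w ∈ LH (c1 m) := LH_mono (min_le_left _ _) hw
      have hw0 : w.re < 0 := lt_of_lt_of_le hw (min_le_right _ _)
      have hb1 := hb w hw1
      have hle' : (O : ℝ) ≤ o m := by exact_mod_cast hle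
      have e1 : Real.exp ((o m : ℝ) * w.re) ≤ Real.exp (O * w.re) := by
        apply Real.exp_le_exp.2
        exact mul_le_mul_of_nonpos_right hle' hw0.le
      have e2 : Real.exp (((o m : ℝ) + 1) * w.re) ≤ Real.exp (O * w.re) := by
        apply Real.exp_le_exp.2
        exact mul_le_mul_of_nonpos_right (by linarith) hw0.le
      calc ‖f m w‖ = ‖(f m w - γ m * Complex.exp (o m * w)) + γ m * Complex.exp (o m * w)‖ := by
            rw [sub_add_cancel]
        _ ≤ ‖f m w - γ m * Complex.exp (o m * w)‖ + ‖γ m * Complex.exp (o m * w)‖ :=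
            norm_add_le _ _
        _ ≤ C1 m * Real.exp ((o m + 1) * w.re) + ‖γ m‖ * Real.exp (o m * w.re) := by
            rw [norm_mul, norm_exp_int]
            gcongr
        _ ≤ |C1 m| * Real.exp ((o m + 1) * w.re) + ‖γ m‖ * Real.exp (o m * w.re) := by
            gcongr; exact le_abs_self _
        _ ≤ |C1 m| * Real.exp (O * w.re) + ‖γ m‖ * Real.exp (O * w.re) := by gcongr
        _ = _ := by ring
    · have h0 : ∀ w ∈ LH c0, f m w = 0 := by
        by_contra hcon
        exact hmS (Finset.mem_filter.2 ⟨hmM, hcon⟩)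
      refine ⟨0, c0, fun w hw => ?_⟩
      rw [h0 w hw]; simp

/-! ### growth -/

/-- `k^β e^{α k}` tends to `0` if `(α, β) < 0` lexicographically -/
theorem growth_zero {α β : ℝ} (h : α < 0 ∨ (α = 0 ∧ β < 0)) :
    Tendsto (fun k : ℕ => (k : ℝ) ^ β * Real.exp (α * k)) atTop (𝓝 0) := by
  rcases h with h | ⟨h1, h2⟩
  · have h3 := tendsto_rpow_mul_exp_neg_mul_atTop_nhds_zero β (-α) (by linarith)
    have h4 := h3.comp (tendsto_natCast_atTop_atTop (R := ℝ))
    refine h4.congr fun k => ?_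
    simp
  · subst h1
    have h3 := tendsto_rpow_neg_atTop (y := -β) (by linarith)
    have h4 := h3.comp (tendsto_natCast_atTop_atTop (R := ℝ))
    refine h4.congr fun k => ?_
    simp

/-! ### auxiliary lemmas for the assembly -/

theorem tlu_of_joint {F : ℕ → ℂ → ℂ} {f : ℂ → ℂ} {V : Set ℂ} (hf : Continuous f)
    (h : ∀ v ∈ V, Tendsto (fun q : ℕ × ℂ => F q.1 q.2) (atTop ×ˢ 𝓝 v) (𝓝 (f v))) :
    TendstoLocallyUniformlyOn F f atTop V := by
  rw [Metric.tendstoLocallyUniformlyOn_iff]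
  intro ε hε v hv
  have h1 := Metric.tendsto_nhds.1 (h v hv) (ε / 2) (by positivity)
  have h2 := Metric.tendsto_nhds.1 (hf.tendsto v) (ε / 2) (by positivity)
  rw [Filter.eventually_prod_iff] at h1
  obtain ⟨pa, hpa, pb, hpb, hab⟩ := h1
  refine ⟨{y | pb y ∧ dist (f y) (f v) < ε / 2}, mem_nhdsWithin_of_mem_nhds (hpb.and h2), ?_⟩
  filter_upwards [hpa] with k hk y hy
  have e1 := hab hk hy.1
  have e2 : dist (f y) (f v) < ε / 2 := hy.2
  calc dist (f y) (F k y) ≤ dist (f y) (f v) + dist (f v) (F k y) := dist_triangle _ _ _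
    _ < ε := by rw [dist_comm (f v)]; linarith

theorem eval_homog {n : ℕ} (c : ℂ) (x : Fin n → ℂ) {d : ℕ} {φ : MvPolynomial (Fin n) ℂ}
    (hφ : φ.IsHomogeneous d) : eval (fun i => c * x i) φ = c ^ d * eval x φ := by
  rw [eval_eq', eval_eq', Finset.mul_sum]
  refine Finset.sum_congr rfl fun m hm => ?_
  have hd : ∑ i, m i = d := by
    have h1 : m.degree = d := by
      by_contra hcon
      exact (mem_support_iff.1 hm) (hφ.coeff_eq_zero hcon)
    rwa [Finsupp.degree_eq_sum] at h1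
  have : ∏ i, (c * x i) ^ m i = c ^ d * ∏ i, x i ^ m i := by
    simp_rw [mul_pow]
    rw [Finset.prod_mul_distrib, Finset.prod_pow_eq_pow_sum, hd]
  rw [this]; ring

theorem exists_kappa {n : ℕ} (S : Finset ℕ) (D : ℕ → MvPolynomial (Fin n) ℂ)
    (hD : ∀ j ∈ S, D j ≠ 0) (b : Fin n → ℂ) :
    ∃ κ : Fin n → ℤ, ∀ j ∈ S,
      eval (fun i => b i + 2 * Real.pi * Complex.I * (κ i : ℂ)) (D j) ≠ 0 := by
  classical
  by_contra hcon
  push Not at hcon
  have hne : ∏ j ∈ S, D j ≠ 0 := Finset.prod_ne_zero_iff.2 hD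
  apply hne
  have h2pi : (2 * (Real.pi : ℂ) * Complex.I) ≠ 0 := Complex.two_pi_I_ne_zero
  apply MvPolynomial.funext_set (fun i : Fin n => Set.range fun k : ℤ =>
    b i + 2 * Real.pi * Complex.I * (k : ℂ))
  · intro i
    apply Set.infinite_range_of_injective
    intro k k' hk
    have h1 : 2 * (Real.pi : ℂ) * Complex.I * (k : ℂ) = 2 * (Real.pi : ℂ) * Complex.I * (k' : ℂ) :=
      add_left_cancel hk
    exact_mod_cast mul_left_cancel₀ h2pi h1
  · intro x hx
    have hx' : ∀ i, ∃ k : ℤ, b i + 2 * Real.pi * Complex.I * (k : ℂ) = x i := fun i =>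
      hx i (Set.mem_univ _)
    choose κ hκ using hx'
    obtain ⟨j, hj, h0⟩ := hcon κ
    have hxe : (fun i => b i + 2 * Real.pi * Complex.I * (κ i : ℂ)) = x := funext hκ
    rw [hxe] at h0
    rw [map_prod, map_zero]
    exact Finset.prod_eq_zero hj h0

/-- the data of the leading growth -/
theorem newton (S : Finset ℕ) (d : ℕ) (hS : ∀ j ∈ S, j < d) (g : ℕ → ℝ) (e : ℕ → ℕ)
    (h0 : 0 ∈ S) (hg : 0 < g 0) :
    ∃ (t : ℕ → ℝ) (S' : Finset ℕ) (js : ℕ), (∀ k, 1 ≤ k → 0 < t k) ∧ Tendsto t atTop atTop ∧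
      S' ⊆ S ∧ js ∈ S' ∧ (∀ j ∈ S', 0 < g j) ∧ (∀ j ∈ S', ∀ j' ∈ S', g j = g j' → j = j') ∧
      ∀ j ∈ S, Tendsto (fun k : ℕ => (k : ℝ) ^ e j * Real.exp (g j * k) / t k ^ (d - j)) atTop
        (𝓝 (if j ∈ S' then 1 else 0)) := by
  classical
  obtain ⟨js, hjs, hmax⟩ := Finset.exists_max_image S
    (fun j => (toLex (g j / ((d : ℝ) - j), (e j : ℝ) / ((d : ℝ) - j)) : ℝ ×ₗ ℝ)) ⟨0, h0⟩
  have hpos : ∀ j ∈ S, 0 < (d : ℝ) - j := by
    intro j hj
    have : (j : ℝ) < d := by exact_mod_cast hS j hj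
    linarith
  set θ : ℝ := g js / ((d : ℝ) - js) with hθ
  set τ : ℝ := (e js : ℝ) / ((d : ℝ) - js) with hτ
  have hmax' : ∀ j ∈ S, g j / ((d : ℝ) - j) < θ ∨
      (g j / ((d : ℝ) - j) = θ ∧ (e j : ℝ) / ((d : ℝ) - j) ≤ τ) := by
    intro j hj
    have := hmax j hj
    rw [Prod.Lex.toLex_le_toLex] at this
    exact this
  have hθp : 0 < θ := by
    have h1 : 0 < g 0 / ((d : ℝ) - (0 : ℕ)) := div_pos hg (hpos 0 h0)
    rcases hmax' 0 h0 with h | h
    · linarith
    · rw [← h.1]; exact h1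
  have hτ0 : 0 ≤ τ := div_nonneg (Nat.cast_nonneg _) (hpos js hjs).le
  set t : ℕ → ℝ := fun k => (k : ℝ) ^ τ * Real.exp (θ * k) with ht
  have htpos : ∀ k, 1 ≤ k → 0 < t k := by
    intro k hk
    have : (0 : ℝ) < k := by exact_mod_cast hk
    simp only [ht]
    positivity
  set S' : Finset ℕ := S.filter fun j => g j = θ * ((d : ℝ) - j) ∧ (e j : ℝ) = τ * ((d : ℝ) - j)
    with hS'
  refine ⟨t, S', js, htpos, ?_, Finset.filter_subset _ _, ?_, ?_, ?_, ?_⟩
  · have h1 : Tendsto (fun k : ℕ => Real.exp (θ * k)) atTop atTop := by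
      apply Real.tendsto_exp_atTop.comp
      exact Tendsto.const_mul_atTop hθp tendsto_natCast_atTop_atTop
    refine tendsto_atTop_mono' _ ?_ h1
    filter_upwards [eventually_ge_atTop 1] with k hk
    have hk' : (1 : ℝ) ≤ k := by exact_mod_cast hk
    have h2 : 1 ≤ (k : ℝ) ^ τ := Real.one_le_rpow hk' hτ0
    have h3 := Real.exp_pos (θ * k)
    simp only [ht]
    nlinarith
  · refine Finset.mem_filter.2 ⟨hjs, ?_, ?_⟩
    · rw [hθ, div_mul_cancel₀]; exact (hpos js hjs).ne'
    · rw [hτ, div_mul_cancel₀]; exact (hpos js hjs).ne'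
  · intro j hj
    obtain ⟨hjS, h1, h2⟩ := Finset.mem_filter.1 hj
    rw [h1]
    exact mul_pos hθp (hpos j hjS)
  · intro j hj j' hj' heq
    have h1 := (Finset.mem_filter.1 hj).2.1
    have h1' := (Finset.mem_filter.1 hj').2.1
    rw [h1, h1'] at heq
    have h3 := mul_left_cancel₀ hθp.ne' heq
    have h4 : (j : ℝ) = j' := by linarith
    exact_mod_cast h4
  · intro j hj
    have hjd : j < d := hS j hj
    have hcast : ((d - j : ℕ) : ℝ) = (d : ℝ) - j := by
      rw [Nat.cast_sub hjd.le]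
    have hform : ∀ᶠ k : ℕ in atTop, (k : ℝ) ^ e j * Real.exp (g j * k) / t k ^ (d - j) =
        (k : ℝ) ^ ((e j : ℝ) - τ * ((d : ℝ) - j)) * Real.exp ((g j - θ * ((d : ℝ) - j)) * k) := by
      filter_upwards [eventually_ge_atTop 1] with k hk
      have hk' : (0 : ℝ) < k := by exact_mod_cast hk
      simp only [ht]
      have e1 : ((d : ℝ) - j) * (θ * k) = θ * ((d : ℝ) - j) * k := by ring
      have e2 : (g j - θ * ((d : ℝ) - j)) * k = g j * k - θ * ((d : ℝ) - j) * k := by ring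
      rw [mul_pow, ← Real.exp_nat_mul, ← Real.rpow_natCast ((k : ℝ) ^ τ), ← Real.rpow_mul hk'.le,
        Real.rpow_sub hk', hcast, Real.rpow_natCast, e1, e2, Real.exp_sub]
      have h1 := Real.exp_pos (θ * ((d : ℝ) - j) * k)
      have h2 : 0 < (k : ℝ) ^ (τ * ((d : ℝ) - j)) := Real.rpow_pos_of_pos hk' _
      field_simp
    refine Tendsto.congr' (EventuallyEq.symm hform) ?_
    by_cases hj' : j ∈ S'
    · rw [if_pos hj']
      obtain ⟨_, h1, h2⟩ := Finset.mem_filter.1 hj'
      rw [h1, h2]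
      simp
    · rw [if_neg hj']
      apply growth_zero
      have hp := hpos j hj
      rcases hmax' j hj with h | ⟨h1, h2⟩
      · left
        rw [div_lt_iff₀ hp] at h
        linarith
      · right
        rw [div_eq_iff hp.ne'] at h1
        rw [div_le_iff₀ hp] at h2
        refine ⟨by linarith, ?_⟩
        rcases lt_or_eq_of_le h2 with h | h
        · linarith
        · exact absurd (Finset.mem_filter.2 ⟨hj, h1, h⟩) hj'

/-! ### the limit function has a zero and is not identically zero -/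

theorem limit_zero (S' : Finset ℕ) (js : ℕ) (hjs : js ∈ S') (o : ℕ → ℤ) (ho : ∀ j ∈ S', o j < 0)
    (hinj : ∀ j ∈ S', ∀ j' ∈ S', o j = o j' → j = j') (c : ℕ → ℂ) (hc : ∀ j ∈ S', c j ≠ 0)
    (c0 : ℂ) (hc0 : c0 ≠ 0) :
    ∃ v0 : ℂ, (∑ j ∈ S', c j * Complex.exp ((o j : ℂ) * v0) + c0 = 0) ∧
      ¬ ∀ᶠ v in 𝓝 v0, ∑ j ∈ S', c j * Complex.exp ((o j : ℂ) * v) + c0 = 0 := by
  classical
  set R : Polynomial ℂ := ∑ j ∈ S', Polynomial.C (c j) * Polynomial.X ^ (-(o j)).toNat +
    Polynomial.C c0 with hR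
  have hev : ∀ v : ℂ, R.eval (Complex.exp (-v)) =
      ∑ j ∈ S', c j * Complex.exp ((o j : ℂ) * v) + c0 := by
    intro v
    rw [hR, Polynomial.eval_add, Polynomial.eval_finsetSum, Polynomial.eval_C]
    congr 1
    refine Finset.sum_congr rfl fun j hj => ?_
    rw [Polynomial.eval_mul, Polynomial.eval_C, Polynomial.eval_pow, Polynomial.eval_X,
      ← Complex.exp_nat_mul]
    congr 2
    have h1 : (((-(o j)).toNat : ℤ) : ℂ) = ((-(o j) : ℤ) : ℂ) := by
      rw [Int.toNat_of_nonneg (by have := ho j hj; omega)]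
    have h2 : (((-(o j)).toNat : ℕ) : ℂ) = -(o j : ℂ) := by
      have := h1
      push_cast at this
      exact this
    rw [h2]; ring
  have hcoeff : R.coeff (-(o js)).toNat = c js := by
    rw [hR, Polynomial.coeff_add, Polynomial.finsetSum_coeff, Polynomial.coeff_C, if_neg, add_zero,
      Finset.sum_eq_single js]
    · simp
    · intro j hj hne
      rw [Polynomial.coeff_C_mul, Polynomial.coeff_X_pow, if_neg, mul_zero]
      intro heq
      apply hne
      apply hinj j hj js hjs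
      have h1 := ho j hj
      have h2 := ho js hjs
      omega
    · intro h; exact absurd hjs h
    · have := ho js hjs; omega
  have hcoeff0 : R.coeff 0 = c0 := by
    rw [hR, Polynomial.coeff_add, Polynomial.finsetSum_coeff, Polynomial.coeff_C_zero,
      Finset.sum_eq_zero, zero_add]
    intro j hj
    rw [Polynomial.coeff_C_mul, Polynomial.coeff_X_pow, if_neg, mul_zero]
    have := ho j hj; omega
  have hR0 : R ≠ 0 := by
    intro h
    rw [h, Polynomial.coeff_zero] at hcoeff0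
    exact hc0 hcoeff0.symm
  have hdeg : 0 < R.degree := by
    rw [← Polynomial.natDegree_pos_iff_degree_pos]
    have h1 := Polynomial.le_natDegree_of_ne_zero (p := R) (n := (-(o js)).toNat)
      (by rw [hcoeff]; exact hc js hjs)
    have := ho js hjs
    omega
  obtain ⟨z0, hz0⟩ := Complex.exists_root hdeg
  have hz0' : z0 ≠ 0 := by
    rintro rfl
    rw [Polynomial.IsRoot, ← Polynomial.coeff_zero_eq_eval_zero, hcoeff0] at hz0
    exact hc0 hz0
  refine ⟨-Complex.log z0, ?_, ?_⟩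
  · rw [← hev, neg_neg, Complex.exp_log hz0']
    exact hz0
  · intro hev0
    apply hR0
    -- identity theorem
    have hdiff : Differentiable ℂ (fun v : ℂ => R.eval (Complex.exp (-v))) := by
      apply Differentiable.comp (g := fun z : ℂ => R.eval z) R.differentiable
      exact Complex.differentiable_exp.comp differentiable_neg
    have han : AnalyticOnNhd ℂ (fun v : ℂ => R.eval (Complex.exp (-v))) Set.univ :=
      fun v _ => hdiff.analyticAt v
    have hz : Set.EqOn (fun v : ℂ => R.eval (Complex.exp (-v))) 0 Set.univ := by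
      apply han.eqOn_zero_of_preconnected_of_eventuallyEq_zero isPreconnected_univ
        (Set.mem_univ (-Complex.log z0))
      filter_upwards [hev0] with v hv
      rw [hev v]; exact hv
    apply Polynomial.eq_zero_of_infinite_isRoot
    refine Set.Infinite.mono ?_ (Set.finite_singleton (0 : ℂ)).infinite_compl
    intro z hz'
    have hz'' : z ≠ 0 := hz'
    have := hz (Set.mem_univ (-Complex.log z))
    simp only [neg_neg, Pi.zero_apply] at this
    rw [Complex.exp_log hz''] at this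
    exact this

/-- the expansion coefficient as a function -/
theorem coeffB {n : ℕ} (M : Finset (Fin n →₀ ℕ)) (q : MvPolynomial (Fin n) ℂ)
    (hq : q.support ⊆ M) (y : Fin n → ℂ) :
    eval y q = ∑ m ∈ M, coeff m q * ∏ i, y i ^ m i := by
  rw [eval_eq']
  refine Finset.sum_subset hq fun m _ hm => ?_
  rw [notMem_support_iff.1 hm, zero_mul]

theorem asyB {n : ℕ} (M : Finset (Fin n →₀ ℕ)) (Q : ℂ → MvPolynomial (Fin n) ℂ)
    (hQ : ∀ w, (Q w).support ⊆ M) (D : MvPolynomial (Fin n) ℂ) (hD : D.support ⊆ M) (o : ℤ)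
    (hA : ∀ m ∈ M, Asy (fun w => Complex.exp (-(o : ℂ) * w) * coeff m (Q w))
      (Polynomial.C (coeff m D)))
    (Y : ℂ → Fin n → ℂ) (L : Fin n → Polynomial ℂ) (hY : ∀ i, Asy (fun w => Y w i) (L i)) :
    Asy (fun w => Complex.exp (-(o : ℂ) * w) * eval (Y w) (Q w)) (aeval L D) := by
  have h1 : Asy (fun w => ∑ m ∈ M, (Complex.exp (-(o : ℂ) * w) * coeff m (Q w)) *
      ∏ i, Y w i ^ m i) (∑ m ∈ M, Polynomial.C (coeff m D) * ∏ i, L i ^ m i) :=
    Asy.sum M fun m hm => (hA m hm).mul (Asy.prod Finset.univ fun i _ => (hY i).pow _)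
  have h2 : aeval L D = ∑ m ∈ M, Polynomial.C (coeff m D) * ∏ i, L i ^ m i := by
    rw [aeval_def, eval₂_eq']
    refine Finset.sum_subset hD fun m _ hm => ?_
    rw [notMem_support_iff.1 hm, map_zero, zero_mul]
  rw [h2]
  refine h1.congr (c := 0) fun w _ => ?_
  rw [coeffB M (Q w) (hQ w), Finset.mul_sum]
  refine Finset.sum_congr rfl fun m _ => ?_
  ring

/-! ### the theorem -/

theorem t_pole : S_pole := by
  classical
  intro n d κ0 a b h c0 C0 p hh hhb hp hdeg hL htop hunb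
  by_contra hcon
  push Not at hcon
  set ξ : Fin n → ℂ := fun i => 2 * Real.pi * Complex.I * (κ0 i : ℂ) with hξ
  have h2pi : (2 * (Real.pi : ℂ) * Complex.I) ≠ 0 := Complex.two_pi_I_ne_zero
  obtain ⟨M, hM⟩ := exists_support ξ d
  have hAlt : ∀ j m, Alt c0 (fun w => coeff m ((T ξ (p w)).coeff j)) := by
    intro j m
    exact hL
      { toFun := fun q => coeff m ((T ξ q).coeff j)
        map_add' := fun x y => by simp
        map_smul' := fun c x => by simp }
  set S : Finset ℕ := (Finset.range d).filter fun j =>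
    ∃ m ∈ M, ¬ ∀ w ∈ LH c0, coeff m ((T ξ (p w)).coeff j) = 0 with hS
  have hkey : ∀ j, ∃ (o : ℤ) (D : MvPolynomial (Fin n) ℂ), j ∈ S → D ≠ 0 ∧ D.support ⊆ M ∧
      (∀ m ∈ M, Asy (fun w => Complex.exp (-(o : ℂ) * w) * coeff m ((T ξ (p w)).coeff j))
        (Polynomial.C (coeff m D))) ∧
      (∀ m ∈ M, ∃ (K c1 : ℝ), ∀ w ∈ LH c1, ‖coeff m ((T ξ (p w)).coeff j)‖ ≤
        K * Real.exp (o * w.re)) := by
    intro j
    by_cases hj : j ∈ S
    · obtain ⟨o, D, h1⟩ := key c0 M (fun m w => coeff m ((T ξ (p w)).coeff j)) (hAlt j)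
        (Finset.mem_filter.1 hj).2
      exact ⟨o, D, fun _ => h1⟩
    · exact ⟨0, 0, fun h => absurd h hj⟩
  choose o D hoD using hkey
  have hSd : ∀ j ∈ S, j < d := fun j hj => Finset.mem_range.1 (Finset.mem_filter.1 hj).1
  -- the value of the top coefficient
  have htop' : ∀ w ∈ LH c0, eval ξ (homogeneousComponent d (p w)) =
      (2 * (Real.pi : ℂ) * Complex.I) ^ d := by
    intro w hw
    rw [hξ, eval_homog _ _ (homogeneousComponent_isHomogeneous d (p w)), htop w hw, mul_one]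
  -- the degree zero part is unbounded
  obtain ⟨mu, hmu⟩ := hunb
  have hmuM : mu ∈ M := by
    obtain ⟨w, hw, _, hB⟩ := hmu 0 0
    apply hM 0 (p w) (hdeg w)
    rw [T_zero, mem_support_iff]
    exact norm_pos_iff.1 hB
  have hd0 : 0 < d := by
    rcases Nat.eq_zero_or_pos d with h0 | h0
    · exfalso
      obtain ⟨w, hw, _, hB⟩ := hmu 1 0
      have h1 := T_top ξ (hdeg w)
      rw [htop' w hw] at h1
      subst h0
      rw [T_zero, pow_zero] at h1
      rw [h1, coeff_C] at hB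
      split_ifs at hB <;> simp at hB
      linarith
    · exact h0
  have h0S : 0 ∈ S := by
    refine Finset.mem_filter.2 ⟨Finset.mem_range.2 hd0, mu, hmuM, fun hz => ?_⟩
    obtain ⟨w, hw, _, hB⟩ := hmu 0 0
    have := hz w hw
    rw [T_zero] at this
    rw [this] at hB
    simp at hB
  have ho0 : o 0 < 0 := by
    by_contra hge
    push Not at hge
    obtain ⟨K, c1, hK⟩ := (hoD 0 h0S).2.2.2 mu hmuM
    obtain ⟨w, hw, hw1, hB⟩ := hmu |K| (min c1 0)
    have h1 := hK w (LH_mono (min_le_left _ _) hw1)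
    rw [T_zero] at h1
    have hw0 : w.re < 0 := lt_of_lt_of_le hw1 (min_le_right _ _)
    have h2 : Real.exp (o 0 * w.re) ≤ 1 := by
      apply Real.exp_le_one_iff.2
      exact mul_nonpos_of_nonneg_of_nonpos (by exact_mod_cast hge) hw0.le
    have h3 : K * Real.exp (o 0 * w.re) ≤ |K| := by
      calc K * Real.exp (o 0 * w.re) ≤ |K| * Real.exp (o 0 * w.re) := by
            gcongr; exact le_abs_self _
        _ ≤ |K| * 1 := by gcongr
        _ = |K| := mul_one _
    linarith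
  obtain ⟨κ, hκ⟩ := exists_kappa S D (fun j hj => (hoD j hj).1) b
  set Y : ℂ → Fin n → ℂ := fun w i =>
    (a i : ℂ) * w + b i + h w i + 2 * Real.pi * Complex.I * (κ i : ℂ) with hYdef
  set Lp : Fin n → Polynomial ℂ := fun i => Polynomial.C (a i : ℂ) * Polynomial.X +
    Polynomial.C (b i + 2 * Real.pi * Complex.I * (κ i : ℂ)) with hLp
  have hY : ∀ i, Asy (fun w => Y w i) (Lp i) := by
    intro i
    refine ⟨|C0|, 0, min c0 0, abs_nonneg _, min_le_right _ _, fun w hw => ?_⟩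
    have h1 := hhb w (LH_mono (min_le_left _ _) hw)
    have h2 : Y w i - (Lp i).eval w = h w i := by
      simp only [hYdef, hLp, Polynomial.eval_add, Polynomial.eval_mul, Polynomial.eval_C,
        Polynomial.eval_X]
      ring
    change ‖Y w i - (Lp i).eval w‖ ≤ _
    rw [h2, pow_zero, mul_one]
    calc ‖h w i‖ ≤ ‖h w‖ := norm_le_pi_norm _ _
      _ ≤ C0 * Real.exp w.re := h1
      _ ≤ |C0| * Real.exp w.re := by gcongr; exact le_abs_self _
  set P : ℕ → Polynomial ℂ := fun j => aeval Lp (D j) with hP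
  have hB : ∀ j ∈ S, Asy (fun w => Complex.exp (-(o j : ℂ) * w) *
      eval (Y w) ((T ξ (p w)).coeff j)) (P j) := fun j hj =>
    asyB M (fun w => (T ξ (p w)).coeff j) (fun w => hM j (p w) (hdeg w)) (D j) (hoD j hj).2.1
      (o j) (hoD j hj).2.2.1 Y Lp hY
  have hP0 : ∀ j ∈ S, P j ≠ 0 := by
    intro j hj h0
    apply hκ j hj
    have h1 : (P j).eval 0 =
        eval (fun i => b i + 2 * Real.pi * Complex.I * (κ i : ℂ)) (D j) := by
      simp only [hP]
      rw [← Polynomial.coe_evalRingHom, ← MvPolynomial.coe_aeval_eq_eval]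
      have : (Polynomial.evalRingHom (0 : ℂ)) (aeval Lp (D j)) =
          (Polynomial.aeval (0 : ℂ)) (aeval Lp (D j)) := by
        rw [Polynomial.coe_evalRingHom, Polynomial.coe_aeval_eq_eval]
      rw [this, ← AlgHom.comp_apply, MvPolynomial.comp_aeval]
      simp only [RingHom.coe_coe]
      congr 2
      funext i
      simp [hLp]
    rw [← h1, h0, Polynomial.eval_zero]
  obtain ⟨t, S', js, htpos, htinf, hS'S, hjs, hgpos, hginj, hρ⟩ := newton S d hSd
    (fun j => -(o j : ℝ)) (fun j => (P j).natDegree) h0S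
    (by have : (o 0 : ℝ) < 0 := by exact_mod_cast ho0
        linarith)
  -- the integers
  set N : ℕ → ℕ := fun k => ⌊t k⌋₊ with hN
  have hNt : Tendsto (fun k => (N k : ℝ) / t k) atTop (𝓝 1) :=
    (tendsto_nat_floor_div_atTop (R := ℝ)).comp htinf
  -- the limit function
  obtain ⟨v0, hv0, hv0'⟩ := limit_zero S' js hjs o
    (fun j hj => by
      have := hgpos j hj
      have h1 : (o j : ℝ) < 0 := by linarith
      exact_mod_cast h1)
    (fun j hj j' hj' heq => hginj j hj j' hj' (by simp only [heq]))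
    (fun j => (-1) ^ (P j).natDegree * (P j).leadingCoeff)
    (fun j hj => mul_ne_zero (pow_ne_zero _ (by norm_num))
      (Polynomial.leadingCoeff_ne_zero.2 (hP0 j (hS'S hj))))
    ((2 * (Real.pi : ℂ) * Complex.I) ^ d) (pow_ne_zero _ h2pi)
  set Ψ : ℂ → ℂ := fun v => ∑ j ∈ S', ((-1) ^ (P j).natDegree * (P j).leadingCoeff) *
    Complex.exp ((o j : ℂ) * v) + (2 * (Real.pi : ℂ) * Complex.I) ^ d with hΨ
  have hΨcont : Continuous Ψ := by
    simp only [hΨ]
    fun_prop
  -- the functions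
  set Φ : ℕ → ℂ → ℂ := fun k v => eval (pt a b h (-(k : ℂ) + v)
    (fun i => (N k : ℤ) * κ0 i + κ i)) (p (-(k : ℂ) + v)) / ((t k : ℝ) : ℂ) ^ d with hΦ
  -- membership in the half plane
  have hmemLH : ∀ v1 : ℂ, ∀ᶠ q : ℕ × ℂ in atTop ×ˢ 𝓝 v1, sh q ∈ LH c0 := by
    intro v1
    have e1 : ∀ᶠ v in 𝓝 v1, ‖v‖ < ‖v1‖ + 1 := by
      have : Tendsto (fun v : ℂ => ‖v‖) (𝓝 v1) (𝓝 ‖v1‖) := continuous_norm.continuousAt
      exact this.eventually_lt_const (by linarith)
    obtain ⟨k0, hk0⟩ := exists_nat_gt (‖v1‖ + 1 - c0)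
    have e2 : ∀ᶠ k : ℕ in atTop, k0 ≤ k := eventually_ge_atTop k0
    filter_upwards [e2.prod_inl (𝓝 v1), e1.prod_inr atTop] with q hq1 hq2
    have hre : q.2.re < ‖v1‖ + 1 := lt_of_le_of_lt (Complex.re_le_norm _) hq2
    have hk : (k0 : ℝ) ≤ q.1 := by exact_mod_cast hq1
    have hshre : (sh q).re = -(q.1 : ℝ) + q.2.re := by simp [sh]
    change (sh q).re < c0
    rw [hshre]; linarith
  have hjoint : ∀ v1 : ℂ, Tendsto (fun q : ℕ × ℂ => Φ q.1 q.2) (atTop ×ˢ 𝓝 v1) (𝓝 (Ψ v1)) := by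
    intro v1
    -- ratio N / t
    have hr : Tendsto (fun q : ℕ × ℂ => (((N q.1 : ℝ) / t q.1 : ℝ) : ℂ)) (atTop ×ˢ 𝓝 v1)
        (𝓝 1) := by
      have h1 := hNt.comp (tendsto_fst (f := (atTop : Filter ℕ)) (g := 𝓝 v1))
      have h2 := (Complex.continuous_ofReal.tendsto 1).comp h1
      rw [Complex.ofReal_one] at h2
      exact h2
    -- the terms
    have hterm : ∀ j ∈ Finset.range d, Tendsto (fun q : ℕ × ℂ => (N q.1 : ℂ) ^ j *
        eval (Y (sh q)) ((T ξ (p (sh q))).coeff j) / ((t q.1 : ℝ) : ℂ) ^ d) (atTop ×ˢ 𝓝 v1)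
        (𝓝 (if j ∈ S' then ((-1) ^ (P j).natDegree * (P j).leadingCoeff) *
          Complex.exp ((o j : ℂ) * v1) else 0)) := by
      intro j hj
      have hjd := Finset.mem_range.1 hj
      by_cases hjS : j ∈ S
      · have l1 := hr.pow j
        rw [one_pow] at l1
        have l2 : Tendsto (fun q : ℕ × ℂ => ((((q.1 : ℕ) : ℝ) ^ (P j).natDegree *
            Real.exp (-(o j : ℝ) * q.1) / t q.1 ^ (d - j) : ℝ) : ℂ)) (atTop ×ˢ 𝓝 v1)
            (𝓝 (((if j ∈ S' then 1 else 0 : ℝ)) : ℂ)) := by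
          have h1 := (hρ j hjS).comp (tendsto_fst (f := (atTop : Filter ℕ)) (g := 𝓝 v1))
          exact (Complex.continuous_ofReal.tendsto _).comp h1
        have l3 : Tendsto (fun q : ℕ × ℂ => Complex.exp ((o j : ℂ) * q.2)) (atTop ×ˢ 𝓝 v1)
            (𝓝 (Complex.exp ((o j : ℂ) * v1))) := by
          have h1 : Continuous (fun v : ℂ => Complex.exp ((o j : ℂ) * v)) := by fun_prop
          exact (h1.tendsto v1).comp tendsto_snd
        have l4 := (hB j hjS).lim v1
        have l5 := ((l1.mul l2).mul l3).mul (l4.const_mul ((-1) ^ (P j).natDegree))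
        have hval : 1 * (((if j ∈ S' then 1 else 0 : ℝ)) : ℂ) * Complex.exp ((o j : ℂ) * v1) *
            ((-1) ^ (P j).natDegree * (P j).leadingCoeff) =
            (if j ∈ S' then ((-1) ^ (P j).natDegree * (P j).leadingCoeff) *
              Complex.exp ((o j : ℂ) * v1) else 0) := by
          split_ifs <;> push_cast <;> ring
        rw [hval] at l5
        refine l5.congr' ?_
        filter_upwards [(eventually_ge_atTop 1).prod_inl (𝓝 v1)] with q hq
        have ht := htpos q.1 hq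
        have ht' : ((t q.1 : ℝ) : ℂ) ≠ 0 := by exact_mod_cast ht.ne'
        have hk : (q.1 : ℂ) ≠ 0 := by
          have : q.1 ≠ 0 := by omega
          exact_mod_cast this
        have hexp : Complex.exp (-(o j : ℂ) * sh q) =
            Complex.exp (-(o j : ℂ) * -(q.1 : ℂ)) * Complex.exp (-(o j : ℂ) * q.2) := by
          rw [← Complex.exp_add]; congr 1; unfold sh; ring
        have hexp2 : Complex.exp (-(o j : ℂ) * q.2) * Complex.exp ((o j : ℂ) * q.2) = 1 := by
          rw [← Complex.exp_add]; simp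
        have hexp3 : Complex.exp (-(o j : ℂ) * -(q.1 : ℂ)) * Complex.exp (-(o j : ℂ) * (q.1 : ℂ))
            = 1 := by
          rw [← Complex.exp_add]; simp
        have hpow : ((t q.1 : ℝ) : ℂ) ^ d = ((t q.1 : ℝ) : ℂ) ^ j * ((t q.1 : ℝ) : ℂ) ^ (d - j) := by
          rw [← pow_add]; congr 1; omega
        have hsign : ((-1 : ℂ)) ^ (P j).natDegree * ((-(q.1 : ℂ))⁻¹) ^ (P j).natDegree *
            (q.1 : ℂ) ^ (P j).natDegree = 1 := by
          rw [← mul_pow, ← mul_pow]
          have : -1 * (-(q.1 : ℂ))⁻¹ * (q.1 : ℂ) = 1 := by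
            rw [inv_neg]; field_simp
          rw [this, one_pow]
        rw [hexp, hpow]
        push_cast
        rw [div_pow]
        have hexp4 : Complex.exp (-(o j : ℂ) * (q.1 : ℂ)) = Complex.exp (-((o j : ℂ) * (q.1 : ℂ))) := by
          rw [neg_mul]
        set E := eval (Y (sh q)) ((T ξ (p (sh q))).coeff j) with hE
        set A1 := Complex.exp (-(o j : ℂ) * -(q.1 : ℂ)) with hA1
        set A2 := Complex.exp (-(o j : ℂ) * q.2) with hA2
        set A3 := Complex.exp ((o j : ℂ) * q.2) with hA3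
        set A4 := Complex.exp (-(o j : ℂ) * (q.1 : ℂ)) with hA4
        have htj : ((t q.1 : ℝ) : ℂ) ^ j ≠ 0 := pow_ne_zero _ ht'
        have htdj : ((t q.1 : ℝ) : ℂ) ^ (d - j) ≠ 0 := pow_ne_zero _ ht'
        calc (N q.1 : ℂ) ^ j / ((t q.1 : ℝ) : ℂ) ^ j * ((q.1 : ℂ) ^ (P j).natDegree * A4 /
              ((t q.1 : ℝ) : ℂ) ^ (d - j)) * A3 *
              ((-1) ^ (P j).natDegree * (A1 * A2 * E * (-(q.1 : ℂ))⁻¹ ^ (P j).natDegree))
            = (N q.1 : ℂ) ^ j * E / (((t q.1 : ℝ) : ℂ) ^ j * ((t q.1 : ℝ) : ℂ) ^ (d - j)) *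
              ((-1 : ℂ) ^ (P j).natDegree * (-(q.1 : ℂ))⁻¹ ^ (P j).natDegree *
                (q.1 : ℂ) ^ (P j).natDegree) * (A2 * A3) * (A1 * A4) := by
              field_simp
          _ = (N q.1 : ℂ) ^ j * E / (((t q.1 : ℝ) : ℂ) ^ j * ((t q.1 : ℝ) : ℂ) ^ (d - j)) := by
              rw [hsign, hexp2, hexp3]; ring
      · rw [if_neg (fun h => hjS (hS'S h))]
        refine Tendsto.congr' ?_ tendsto_const_nhds
        filter_upwards [hmemLH v1] with q hq
        have h0 : (T ξ (p (sh q))).coeff j = 0 := by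
          apply MvPolynomial.ext
          intro m
          rw [coeff_zero]
          by_cases hmM : m ∈ M
          · by_contra hne
            apply hjS
            refine Finset.mem_filter.2 ⟨hj, m, hmM, fun hz => hne (hz _ hq)⟩
          · by_contra hne
            exact hmM (hM j _ (hdeg _) (mem_support_iff.2 hne))
        rw [h0]; simp
    have hsum := tendsto_finsetSum (Finset.range d) hterm
    have hlast := (hr.pow d).mul_const ((2 * (Real.pi : ℂ) * Complex.I) ^ d)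
    rw [one_pow, one_mul] at hlast
    have hall := hsum.add hlast
    have hval : (∑ j ∈ Finset.range d, if j ∈ S' then
        ((-1) ^ (P j).natDegree * (P j).leadingCoeff) * Complex.exp ((o j : ℂ) * v1) else 0) +
        (2 * (Real.pi : ℂ) * Complex.I) ^ d = Ψ v1 := by
      simp only [hΨ]
      congr 1
      rw [← Finset.sum_filter]
      congr 1
      ext j
      simp only [Finset.mem_filter, Finset.mem_range, and_iff_right_iff_imp]
      exact fun hj => hSd j (hS'S hj)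
    rw [hval] at hall
    refine hall.congr' ?_
    filter_upwards [hmemLH v1, (eventually_ge_atTop 1).prod_inl (𝓝 v1)] with q hq hq1
    have ht := htpos q.1 hq1
    have ht' : ((t q.1 : ℝ) : ℂ) ≠ 0 := by exact_mod_cast ht.ne'
    have hpt : pt a b h (-(q.1 : ℂ) + q.2) (fun i => (N q.1 : ℤ) * κ0 i + κ i) =
        fun i => Y (sh q) i + (N q.1 : ℂ) * ξ i := by
      funext i
      simp only [pt, hYdef, hξ, sh]
      push_cast
      ring
    change _ = eval (pt a b h (-(q.1 : ℂ) + q.2) (fun i => (N q.1 : ℤ) * κ0 i + κ i))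
      (p (sh q)) / ((t q.1 : ℝ) : ℂ) ^ d
    rw [hpt, T_expand ξ (Y (sh q)) (N q.1 : ℂ) (hdeg (sh q)), htop' _ hq, add_div, Finset.sum_div]
    congr 1
    push_cast
    rw [div_pow]
    ring
  -- a uniform index
  obtain ⟨K, hK'⟩ := exists_nat_gt (max (v0.re + 1 - c0) 0)
  have hK : v0.re + 1 - c0 < K := lt_of_le_of_lt (le_max_left _ _) hK'
  have hK1 : 1 ≤ K := by
    have : (0 : ℝ) < K := lt_of_le_of_lt (le_max_right _ _) hK'
    exact_mod_cast this
  have hball : ∀ k : ℕ, ∀ v ∈ Metric.ball v0 1, -((k + K : ℕ) : ℂ) + v ∈ LH c0 := by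
    intro k v hv
    change (-((k + K : ℕ) : ℂ) + v).re < c0
    have h1 : v.re < v0.re + 1 := by
      have h2 : ‖v - v0‖ < 1 := by rwa [mem_ball_iff_norm] at hv
      have h3 := Complex.re_le_norm (v - v0)
      rw [Complex.sub_re] at h3
      linarith
    have h4 : (-((k + K : ℕ) : ℂ) + v).re = -((k : ℝ) + K) + v.re := by
      simp
    rw [h4]
    have h5 : (0 : ℝ) ≤ k := Nat.cast_nonneg _
    linarith
  apply hv0'
  refine Pool.Agent.Helper202.Riemann.hurwitz (l := atTop) (V := Metric.ball v0 1)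
    (F := fun k => Φ (k + K)) (f := Ψ) Metric.isOpen_ball ?_ ?_ ?_ (Metric.mem_ball_self one_pos) hv0
  · -- holomorphic
    intro k
    simp only [hΦ]
    apply DifferentiableOn.div_const
    have hmaps : Set.MapsTo (fun v : ℂ => -((k + K : ℕ) : ℂ) + v) (Metric.ball v0 1) (LH c0) :=
      fun v hv => hball k v hv
    have hdsh : DifferentiableOn ℂ (fun v : ℂ => -((k + K : ℕ) : ℂ) + v) (Metric.ball v0 1) := by
      fun_prop
    have hsupp : ∀ w, (p w).support ⊆ M := by
      intro w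
      have := hM 0 (p w) (hdeg w)
      rwa [T_zero] at this
    have hform : ∀ v, eval (pt a b h (-((k + K : ℕ) : ℂ) + v)
        (fun i => (N (k + K) : ℤ) * κ0 i + κ i)) (p (-((k + K : ℕ) : ℂ) + v)) =
        ∑ m ∈ M, coeff m (p (-((k + K : ℕ) : ℂ) + v)) *
          ∏ i, (pt a b h (-((k + K : ℕ) : ℂ) + v) (fun i => (N (k + K) : ℤ) * κ0 i + κ i)) i ^ m i :=
      fun v => coeffB M _ (hsupp _) _
    simp_rw [hform]
    refine DifferentiableOn.fun_sum fun m _ => ?_
    apply DifferentiableOn.mul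
    · exact (hp m).comp hdsh hmaps
    · refine DifferentiableOn.fun_finsetProd fun i _ => ?_
      apply DifferentiableOn.pow
      have h1 : DifferentiableOn ℂ (fun v : ℂ => h (-((k + K : ℕ) : ℂ) + v) i)
          (Metric.ball v0 1) := (hh i).comp hdsh hmaps
      have h2 : DifferentiableOn ℂ (fun v : ℂ => (a i : ℂ) * (-((k + K : ℕ) : ℂ) + v) + b i)
          (Metric.ball v0 1) := by fun_prop
      exact (h2.add h1).add_const _
  · apply tlu_of_joint hΨcont
    intro v hv
    have h1 : Tendsto (fun q : ℕ × ℂ => (q.1 + K, q.2)) (atTop ×ˢ 𝓝 v) (atTop ×ˢ 𝓝 v) :=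
      ((tendsto_add_atTop_nat K).comp tendsto_fst).prodMk tendsto_snd
    have h2 := (hjoint v).comp h1
    simp only [Function.comp_def] at h2
    exact h2
  · intro k v hv hz
    simp only [hΦ] at hz
    rw [div_eq_zero_iff] at hz
    rcases hz with hz | hz
    · exact hcon _ (hball k v hv) _ hz
    · have h1 := htpos (k + K) (by omega)
      have h2 : ((t (k + K) : ℝ) : ℂ) ≠ 0 := by exact_mod_cast h1.ne'
      exact pow_ne_zero _ h2 hz

end Pool.Agent.W695.ECPole
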